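import Pool.Agent.U243.ACFBound

/-!
# Gushel-Mukai fourfolds: the degree of a birational parametrisation, and finite fields

The pairs `(H, Q)` of a linear form and a quadratic form in the ten Plücker coordinates are the points of affine `65`-space (`10`
and `55` coefficients), over every field. `GMTheory` collects the known facts used.

* `gm_fo`: that `X_a = Gr(2,5) ∩ H ∩ Q` is smooth of dimension four is a constructible condition over `ℤ`.
* `par_fo`: that there is a birational map `ℙ⁴ ⇢ X_a` given by ten forms of degree at most `d` is a constructible condition over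
  `ℤ`, for fixed `d` (the inverse map has a degree bounded in terms of `d`).
* `vg_iff`, `vi_iff`: by de Fernex-Fusi and Kontsevich-Tschinkel the rational fourfolds are a countable union of closed sets in
  the space of all smooth ones, which is irreducible; so the very general one is rational if all are, and it is irrational if one is.
-/

set_option autoImplicit false

namespace Pool.Agent.Results.MP_274aea_ag.ParametrisationDegree

open Pool.Agent.U243.ACF

/-- Gushel-Mukai fourfolds over algebraically closed fields, with the known facts that are used. -/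
structure GMTheory where
  /-- `GM K a`: `X_a = Gr(2,5) ∩ H ∩ Q` is smooth of dimension `4`, where `a` are the coefficients of `H` and `Q` -/
  GM : ∀ (K : Type) [Field K], (Fin 65 → K) → Prop
  /-- `Par d K a`: there is a birational map `ℙ⁴ ⇢ X_a` given by ten forms of degree at most `d` -/
  Par : ℕ → ∀ (K : Type) [Field K], (Fin 65 → K) → Prop
  /-- `X_a` is rational, for complex `a` -/
  Rational : (Fin 65 → ℂ) → Prop
  gm_fo : FO1 GM
  par_fo : FO Par
  par_mono : Incr Par
  rat_iff : ∀ a, GM ℂ a → (Rational a ↔ ∃ d, Par d ℂ a)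
  vg_iff : (∃ F : ℕ → MvPolynomial (Fin 65) ℂ, (∀ i, F i ≠ 0) ∧
      ∀ a, GM ℂ a → (∀ i, MvPolynomial.eval a (F i) ≠ 0) → Rational a) ↔ ∀ a, GM ℂ a → Rational a
  vi_iff : (∃ F : ℕ → MvPolynomial (Fin 65) ℂ, (∀ i, F i ≠ 0) ∧
      ∀ a, GM ℂ a → (∀ i, MvPolynomial.eval a (F i) ≠ 0) → ¬ Rational a) ↔ ∃ a, GM ℂ a ∧ ¬ Rational a

variable (S : GMTheory)

/-- Q1: the very general GM fourfold is rational -/
def VeryGeneralRational : Prop :=
  ∃ F : ℕ → MvPolynomial (Fin 65) ℂ, (∀ i, F i ≠ 0) ∧
    ∀ a, S.GM ℂ a → (∀ i, MvPolynomial.eval a (F i) ≠ 0) → S.Rational a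

/-- the negated form: the very general GM fourfold is irrational -/
def VeryGeneralIrrational : Prop :=
  ∃ F : ℕ → MvPolynomial (Fin 65) ℂ, (∀ i, F i ≠ 0) ∧
    ∀ a, S.GM ℂ a → (∀ i, MvPolynomial.eval a (F i) ≠ 0) → ¬ S.Rational a

/-- all smooth GM fourfolds over `K` have birational parametrisations of degree at most `d` -/
def AllPar (d : ℕ) (K : Type) [Field K] : Prop := ∀ a : Fin 65 → K, S.GM K a → S.Par d K a

variable {S}

lemma engine : List.TFAE [
    ∀ a : Fin 65 → ℂ, (∀ _ : ℕ, S.GM ℂ a) → ∃ m, S.Par m ℂ a,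
    ∃ N, ∀ a : Fin 65 → ℂ, S.GM ℂ a → S.Par N ℂ a,
    ∃ N, ∀ (K : Type) [Field K], IsAlgClosed K → (CharZero K ∨ ∃ p, N < p ∧ p.Prime ∧ CharP K p) →
      ∀ a : Fin 65 → K, S.GM K a → S.Par N K a,
    ∃ N, ∀ a : Fin 65 → AlgebraicClosure ℚ, S.GM (AlgebraicClosure ℚ) a → S.Par N (AlgebraicClosure ℚ) a,
    ∃ N, ∀ B, ∃ p, B < p ∧ p.Prime ∧ ∃ (K : Type) (_ : Field K), IsAlgClosed K ∧ CharP K p ∧
      ∀ a : Fin 65 → K, S.GM K a → S.Par N K a] :=
  tfae (P := fun _ K _ a => S.GM K a) (Q := S.Par) (fun _ => S.gm_fo) S.par_fo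
    (fun _ _ _ _ _ _ _ h => h) S.par_mono

variable (S)

/-- First part: the very general GM fourfold is rational if and only if there is one `d` such that all smooth GM fourfolds over
all algebraically closed fields of characteristic zero or `p > d` have birational parametrisations of degree at most `d`, if and
only if there is such a `d` for the algebraic closure of `ℚ`, if and only if there is such a `d` for some algebraically closed
field of characteristic `p`, for infinitely many `p`. Second part: the negated form of Q1 is equivalent to the following: for every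
`d`, for all sufficiently large `p`, over every algebraically closed field of characteristic `p` (for example the algebraic
closure of the field with `p` elements) there is a smooth GM fourfold without birational parametrisations of degree at most `d`; and
if for infinitely many `p` there is an irrational one, then the negated form of Q1 holds. -/
theorem result :
    List.TFAE [
      VeryGeneralRational S,
      ∃ d, ∀ (K : Type) [Field K], IsAlgClosed K → (CharZero K ∨ ∃ p, d < p ∧ p.Prime ∧ CharP K p) → AllPar S d K,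
      ∃ d, AllPar S d (AlgebraicClosure ℚ),
      ∃ d, ∀ B, ∃ p, B < p ∧ p.Prime ∧ ∃ (K : Type) (_ : Field K), IsAlgClosed K ∧ CharP K p ∧ AllPar S d K] ∧
    (VeryGeneralIrrational S ↔ ∀ d, ∃ B, ∀ p, B < p → p.Prime → ∀ (K : Type) [Field K], IsAlgClosed K → CharP K p →
      ∃ a : Fin 65 → K, S.GM K a ∧ ¬ S.Par d K a) ∧
    ((∀ B, ∃ p, B < p ∧ p.Prime ∧ ∃ (K : Type) (_ : Field K), IsAlgClosed K ∧ CharP K p ∧
      ∃ a : Fin 65 → K, S.GM K a ∧ ∀ d, ¬ S.Par d K a) → VeryGeneralIrrational S) := by
  have e := engine (S := S)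
  have h1 : VeryGeneralRational S ↔ ∀ a : Fin 65 → ℂ, (∀ _ : ℕ, S.GM ℂ a) → ∃ m, S.Par m ℂ a := by
    unfold VeryGeneralRational
    rw [S.vg_iff]
    constructor
    · intro h a ha
      exact (S.rat_iff a (ha 0)).1 (h a (ha 0))
    · intro h a ha
      exact (S.rat_iff a ha).2 (h a fun _ => ha)
  have h2 : VeryGeneralIrrational S ↔ ¬ VeryGeneralRational S := by
    unfold VeryGeneralIrrational VeryGeneralRational
    rw [S.vg_iff, S.vi_iff]
    push Not
    exact Iff.rfl
  refine ⟨?_, ?_, ?_⟩
  · tfae_have 1 ↔ 2 := h1.trans (e.out 0 2)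
    tfae_have 1 ↔ 3 := h1.trans (e.out 0 3)
    tfae_have 1 ↔ 4 := h1.trans (e.out 0 4)
    tfae_finish
  · rw [h2, h1.trans (e.out 0 4)]
    push Not
    refine forall_congr' fun d => exists_congr fun B => ?_
    constructor
    · intro h p hp hpp K _ hK hc
      exact h p hp hpp K _ hK hc
    · intro h p hp hpp K _ hK hc
      exact h p hp hpp K _ hK hc
  · intro h
    rw [h2, h1.trans (e.out 0 2)]
    rintro ⟨N, hN⟩
    obtain ⟨p, hp, hpp, K, _, hK, hc, a, ha, hd⟩ := h N
    exact hd N (hN K hK (Or.inr ⟨p, hp, hpp, hc⟩) a ha)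

end Pool.Agent.Results.MP_274aea_ag.ParametrisationDegree
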